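import Pool.Agent.Helper17.Agg.Core

namespace Pool.Agent.Helper17.Agg

open Set Filter Topology

variable {E : Type*} [NormedAddCommGroup E] [NormedSpace ℝ E]
variable {B : Fin 3 → LinearMap.BilinForm ℝ (E × ℝ)} {θ : Fin 3 → ℝ}

/-- Multipliers in the simplex that are nonnegative on the kernel of some `h ∈ HH`. -/
def Om (B : Fin 3 → LinearMap.BilinForm ℝ (E × ℝ)) : Set (Fin 3 → ℝ) :=
  {lam | lam ∈ stdSimplex ℝ (Fin 3) ∧ ∃ h ∈ HH B, lam ∈ KK B h}

lemma isClosed_KK (H : Hyp B θ) :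
    IsClosed {p : ((E × ℝ) →L[ℝ] ℝ) × (Fin 3 → ℝ) | p.2 ∈ KK B p.1} := by
  have : {p : ((E × ℝ) →L[ℝ] ℝ) × (Fin 3 → ℝ) | p.2 ∈ KK B p.1} =
      ⋂ y : E × ℝ, ⋂ y' : E × ℝ, {p : ((E × ℝ) →L[ℝ] ℝ) × (Fin 3 → ℝ) |
        0 ≤ Q B p.2 (p.1 y' • y - p.1 y • y')} := by
    ext p; simp [KK]
  rw [this]
  refine isClosed_iInter fun y => isClosed_iInter fun y' => isClosed_le continuous_const ?_
  have e : (fun p : ((E × ℝ) →L[ℝ] ℝ) × (Fin 3 → ℝ) => Q B p.2 (p.1 y' • y - p.1 y • y')) =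
      fun p => (p.1 y') ^ 2 * (∑ i, p.2 i * B i y y) + (-(p.1 y)) ^ 2 * (∑ i, p.2 i * B i y' y')
        + 2 * (p.1 y') * (-(p.1 y)) * (∑ i, p.2 i * B i y y') := by
    funext p
    rw [sub_eq_add_neg, ← neg_smul, Q_comb H.symm]
    rfl
  rw [e]
  have c1 : Continuous fun p : ((E × ℝ) →L[ℝ] ℝ) × (Fin 3 → ℝ) => p.1 y :=
    (ContinuousLinearMap.apply ℝ ℝ y).continuous.comp continuous_fst
  have c2 : Continuous fun p : ((E × ℝ) →L[ℝ] ℝ) × (Fin 3 → ℝ) => p.1 y' :=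
    (ContinuousLinearMap.apply ℝ ℝ y').continuous.comp continuous_fst
  fun_prop

lemma HH_of_closed (H : Hyp B θ) {h : (E × ℝ) →L[ℝ] ℝ} (h0 : h ≠ 0)
    (hc : ∀ x ∈ SS B, 0 ≤ h (x, 1)) : h ∈ HH B := by
  intro x hx
  refine lt_of_le_of_ne (hc x hx) fun hzero => h0 ?_
  have hopen := isOpen_SS H
  have hdir : ∀ v : E, h (v, 0) = 0 := by
    intro v
    have hcont : Continuous fun ε : ℝ => x + ε • v := by fun_prop
    have hop := hopen.preimage hcont
    have hm : (0:ℝ) ∈ (fun ε : ℝ => x + ε • v) ⁻¹' SS B := by simpa using hx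
    obtain ⟨δ, hδ, hball⟩ := Metric.isOpen_iff.mp hop 0 hm
    have e2 : ∀ ε : ℝ, h (x + ε • v, 1) = ε * h (v, 0) := by
      intro ε
      have : ((x + ε • v, (1:ℝ)) : E × ℝ) = (x, 1) + ε • (v, 0) := by simp
      rw [this, map_add, map_smul, ← hzero, zero_add, smul_eq_mul]
    have p1 := hc _ (hball (show (δ / 2) ∈ Metric.ball (0:ℝ) δ by
      simp [abs_of_pos hδ]; linarith))
    have p2 := hc _ (hball (show (-(δ / 2)) ∈ Metric.ball (0:ℝ) δ by
      simp [abs_of_pos hδ]; linarith))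
    rw [e2] at p1 p2
    have hd2 : 0 < δ / 2 := by positivity
    nlinarith
  have h1 : h (0, 1) = 0 := by
    have : ((x, (1:ℝ)) : E × ℝ) = (x, 0) + (0, 1) := by simp
    rw [this, map_add, hdir, zero_add] at hzero
    exact hzero.symm
  ext y
  · simpa using hdir y
  · simpa using h1

lemma HH_smul {h : (E × ℝ) →L[ℝ] ℝ} (hh : h ∈ HH B) {r : ℝ} (hr : 0 < r) : r • h ∈ HH B := by
  intro x hx
  have := hh x hx
  simp only [smul_apply, smul_eq_mul]
  positivity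

lemma KK_smul_h {h : (E × ℝ) →L[ℝ] ℝ} {lam : Fin 3 → ℝ} (hk : lam ∈ KK B h) (r : ℝ) :
    lam ∈ KK B (r • h) := by
  intro y y'
  have e : (r • h) y' • y - (r • h) y • y' = r • (h y' • y - h y • y') := by
    simp only [smul_apply, smul_eq_mul, smul_sub, mul_smul]
  rw [e, Q_smul]
  exact mul_nonneg (sq_nonneg r) (hk y y')

lemma finiteDimensional_E (H : Hyp B θ) : FiniteDimensional ℝ E := by
  have hfin : 0 < Module.finrank ℝ E := by have := H.dim; omega
  exact Module.finite_of_finrank_pos hfin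

lemma isCompact_Om (H : Hyp B θ) : IsCompact (Om B) := by
  have := finiteDimensional_E H
  have hprop : ProperSpace ((E × ℝ) →L[ℝ] ℝ) := FiniteDimensional.proper ℝ _
  have hc : IsCompact ((Metric.sphere (0 : (E × ℝ) →L[ℝ] ℝ) 1) ×ˢ (stdSimplex ℝ (Fin 3))) :=
    (isCompact_sphere _ _).prod (isCompact_stdSimplex ℝ (Fin 3))
  have hclosed : IsClosed ({p : ((E × ℝ) →L[ℝ] ℝ) × (Fin 3 → ℝ) | p.2 ∈ KK B p.1} ∩
      {p : ((E × ℝ) →L[ℝ] ℝ) × (Fin 3 → ℝ) | ∀ x ∈ SS B, 0 ≤ p.1 (x, 1)}) := by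
    refine (isClosed_KK H).inter ?_
    have : {p : ((E × ℝ) →L[ℝ] ℝ) × (Fin 3 → ℝ) | ∀ x ∈ SS B, 0 ≤ p.1 (x, 1)} =
        ⋂ x ∈ SS B, {p : ((E × ℝ) →L[ℝ] ℝ) × (Fin 3 → ℝ) | 0 ≤ p.1 (x, 1)} := by
      ext p; simp
    rw [this]
    refine isClosed_biInter fun x _ => isClosed_le continuous_const ?_
    exact (ContinuousLinearMap.apply ℝ ℝ ((x, 1) : E × ℝ)).continuous.comp continuous_fst
  have himg := (hc.inter_right hclosed).image continuous_snd
  convert himg using 1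
  ext lam
  constructor
  · rintro ⟨hl, h, hh, hk⟩
    have h0 := HH_ne_zero H hh
    have hn : 0 < ‖h‖⁻¹ := inv_pos.mpr (norm_pos_iff.mpr h0)
    refine ⟨(‖h‖⁻¹ • h, lam), ⟨⟨?_, hl⟩, KK_smul_h hk _, fun x hx => (HH_smul hh hn x hx).le⟩, rfl⟩
    simp only [mem_sphere_iff_norm, sub_zero]
    rw [norm_smul, norm_inv, norm_norm, inv_mul_cancel₀ (norm_ne_zero_iff.mpr h0)]
  · rintro ⟨⟨h, l⟩, ⟨⟨h1, h2⟩, h3, h4⟩, rfl⟩
    refine ⟨h2, h, HH_of_closed H ?_ h4, h3⟩
    rintro rfl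
    simp at h1

lemma HH_seg {h h' : (E × ℝ) →L[ℝ] ℝ} (hh : h ∈ HH B) (hh' : h' ∈ HH B) {t : ℝ}
    (ht : t ∈ Icc (0:ℝ) 1) : (1 - t) • h + t • h' ∈ HH B := by
  intro x hx
  have p1 := hh x hx
  have p2 := hh' x hx
  simp only [add_apply, smul_apply, smul_eq_mul]
  rcases ht.1.eq_or_lt with h0 | h0
  · rw [← h0]; simpa using p1
  · have := mul_pos h0 p2
    have := mul_nonneg (by linarith [ht.2] : (0:ℝ) ≤ 1 - t) p1.le
    linarith

lemma isClosed_T (H : Hyp B θ) (h h' : (E × ℝ) →L[ℝ] ℝ) {C : Set (Fin 3 → ℝ)} (hC : IsCompact C) :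
    IsClosed {t : ℝ | t ∈ Icc (0:ℝ) 1 ∧ ∃ lam ∈ C, lam ∈ KK B ((1 - t) • h + t • h')} := by
  have hc : IsCompact ((Icc (0:ℝ) 1) ×ˢ C) := isCompact_Icc.prod hC
  have hcont : Continuous fun p : ℝ × (Fin 3 → ℝ) => ((1 - p.1) • h + p.1 • h', p.2) := by fun_prop
  have hcl := (isClosed_KK H).preimage hcont
  have himg := ((hc.inter_right hcl).image continuous_fst).isClosed
  convert himg using 1
  ext t
  constructor
  · rintro ⟨ht, lam, hl, hk⟩
    exact ⟨(t, lam), ⟨⟨ht, hl⟩, hk⟩, rfl⟩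
  · rintro ⟨⟨s, lam⟩, ⟨⟨hs, hl⟩, hk⟩, rfl⟩
    exact ⟨hs, lam, hl, hk⟩

lemma sum3 {i j k : Fin 3} (hij : i ≠ j) (hjk : j ≠ k) (hik : i ≠ k) (f : Fin 3 → ℝ) :
    ∑ x, f x = f i + f j + f k := by
  fin_cases i <;> fin_cases j <;> fin_cases k <;> first
    | exact absurd rfl hij
    | exact absurd rfl hjk
    | exact absurd rfl hik
    | (simp only [Fin.sum_univ_three]; simp; try ring)

/-- covering of an edge -/
lemma edge {O : Set (Fin 3 → ℝ)} (hO : IsCompact O) (hO' : O ⊆ stdSimplex ℝ (Fin 3))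
    {i j k : Fin 3} (hij : i ≠ j) (hjk : j ≠ k) (hik : i ≠ k) :
    ∃ F : Finset (Fin 3 → ℝ), F.card ≤ 2 ∧ (∀ lam ∈ F, lam ∈ O) ∧
      ∀ lam ∈ O, lam k = 0 → ∀ u : Fin 3 → ℝ, 0 ≤ ∑ x, lam x * u x →
        ∃ mu ∈ F, 0 ≤ ∑ x, mu x * u x := by
  classical
  have hOk : IsCompact (O ∩ {lam | lam k = 0}) :=
    hO.inter_right (isClosed_eq (continuous_apply k) continuous_const)
  by_cases hne : (O ∩ {lam | lam k = 0}).Nonempty
  · obtain ⟨a, ha, hamin⟩ := hOk.exists_isMinOn hne (continuous_apply i).continuousOn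
    obtain ⟨b, hb, hbmax⟩ := hOk.exists_isMaxOn hne (continuous_apply i).continuousOn
    refine ⟨{a, b}, Finset.card_le_two, ?_, ?_⟩
    · intro lam hl
      simp only [Finset.mem_insert, Finset.mem_singleton] at hl
      rcases hl with rfl | rfl
      · exact ha.1
      · exact hb.1
    · intro lam hl hk u hu
      have h1 : a i ≤ lam i := hamin (show lam ∈ O ∩ {lam | lam k = 0} from ⟨hl, hk⟩)
      have h2 : lam i ≤ b i := hbmax (show lam ∈ O ∩ {lam | lam k = 0} from ⟨hl, hk⟩)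
      have s1 := (hO' hl).2
      have s2 := (hO' ha.1).2
      have s3 := (hO' hb.1).2
      have ak : a k = 0 := ha.2
      have bk : b k = 0 := hb.2
      rw [sum3 hij hjk hik] at s1 s2 s3 hu
      by_contra hcon
      push Not at hcon
      have c1 := hcon a (by simp)
      have c2 := hcon b (by simp)
      rw [sum3 hij hjk hik] at c1 c2
      rw [hk] at s1 hu
      rw [ak] at s2 c1
      rw [bk] at s3 c2
      have e1 : lam j = 1 - lam i := by linarith
      have e2 : a j = 1 - a i := by linarith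
      have e3 : b j = 1 - b i := by linarith
      rw [e1] at hu; rw [e2] at c1; rw [e3] at c2
      rcases le_total (u j) (u i) with h | h
      · nlinarith
      · nlinarith
  · refine ⟨∅, by simp, by simp, ?_⟩
    intro lam hl hk
    exact absurd ⟨lam, hl, hk⟩ hne

/-- covering of an edge one of whose vertices belongs to `O` -/
lemma edge' {O : Set (Fin 3 → ℝ)} (hO : IsCompact O) (hO' : O ⊆ stdSimplex ℝ (Fin 3))
    {i j k : Fin 3} (hij : i ≠ j) (hjk : j ≠ k) (hik : i ≠ k)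
    (hv : (Pi.single i 1 : Fin 3 → ℝ) ∈ O) :
    ∃ b ∈ O, ∀ lam ∈ O, lam k = 0 → ∀ u : Fin 3 → ℝ, 0 ≤ ∑ x, lam x * u x →
        0 ≤ ∑ x, (Pi.single i 1 : Fin 3 → ℝ) x * u x ∨ 0 ≤ ∑ x, b x * u x := by
  have hOk : IsCompact (O ∩ {lam | lam k = 0}) :=
    hO.inter_right (isClosed_eq (continuous_apply k) continuous_const)
  have hne : (O ∩ {lam | lam k = 0}).Nonempty := ⟨_, hv, by simp [Pi.single_apply, hik.symm]⟩
  obtain ⟨b, hb, hbmin⟩ := hOk.exists_isMinOn hne (continuous_apply i).continuousOn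
  refine ⟨b, hb.1, fun lam hl hk u hu => ?_⟩
  have h1 : b i ≤ lam i := hbmin (show lam ∈ O ∩ {lam | lam k = 0} from ⟨hl, hk⟩)
  have s1 := (hO' hl).2
  have s3 := (hO' hb.1).2
  have l1 := (hO' hl).1 j
  have bk : b k = 0 := hb.2
  rw [sum3 hij hjk hik] at s1 s3 hu
  by_contra hcon
  push Not at hcon
  obtain ⟨c1, c2⟩ := hcon
  rw [sum3 hij hjk hik] at c1 c2
  simp only [Pi.single_eq_same, Pi.single_apply, hij.symm, hik.symm, if_false, one_mul,
    zero_mul, add_zero] at c1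
  rw [hk] at s1 hu
  rw [bk] at s3 c2
  have e1 : lam j = 1 - lam i := by linarith
  have e3 : b j = 1 - b i := by linarith
  rw [e1] at hu l1; rw [e3] at c2
  rcases le_total (u j) (u i) with h | h
  · nlinarith
  · nlinarith

lemma exists_NN (H : Hyp B θ) {h : (E × ℝ) →L[ℝ] ℝ} (hh : h ∈ HH B) :
    ∃ lam ∈ stdSimplex ℝ (Fin 3), lam ∈ KK B h ∧ ∃ i, θ i < 0 ∧ lam i = 0 := by
  classical
  obtain ⟨lam, hl, hk⟩ := exists_lam H hh
  have h0 := HH_ne_zero H hh
  -- J nonempty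
  have hJ : (Finset.univ.filter fun i => θ i < 0).Nonempty := by
    by_contra hcon
    rw [Finset.not_nonempty_iff_eq_empty, Finset.filter_eq_empty_iff] at hcon
    obtain ⟨x, hx⟩ := H.ne
    have := H.pd (x, 1) (by intro h; simpa using congrArg Prod.snd h)
    have h2 : Q B θ (x, 1) ≤ 0 := by
      refine Finset.sum_nonpos fun i _ => ?_
      exact mul_nonpos_of_nonneg_of_nonpos (not_lt.mp (hcon (Finset.mem_univ i))) (hx i).le
    linarith
  obtain ⟨i0, hi0, hmin⟩ := Finset.exists_min_image _ (fun i => lam i / (-θ i)) hJ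
  simp only [Finset.mem_filter, Finset.mem_univ, true_and] at hi0 hmin
  set s := lam i0 / (-θ i0) with hs
  have hs0 : 0 ≤ s := div_nonneg (hl.1 i0) (by linarith)
  set mu : Fin 3 → ℝ := lam + s • θ with hmu
  have hmuK : mu ∈ KK B h := KK_add hk (KK_smul (theta_mem H h) hs0)
  have hmu0 : ∀ i, 0 ≤ mu i := by
    intro i
    simp only [hmu, Pi.add_apply, Pi.smul_apply, smul_eq_mul]
    by_cases hi : θ i < 0
    · have := hmin i hi
      rw [le_div_iff₀ (by linarith)] at this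
      linarith
    · push Not at hi
      exact add_nonneg (hl.1 i) (mul_nonneg hs0 hi)
  have hmui : mu i0 = 0 := by
    simp only [hmu, Pi.add_apply, Pi.smul_apply, smul_eq_mul, hs]
    have : θ i0 ≠ 0 := hi0.ne
    field_simp; ring
  have hsum : 0 < ∑ i, mu i := by
    refine lt_of_le_of_ne (Finset.sum_nonneg fun i _ => hmu0 i) fun hz => ?_
    have hall : ∀ i, mu i = 0 := fun i =>
      (Finset.sum_eq_zero_iff_of_nonneg (fun i _ => hmu0 i)).mp hz.symm i (Finset.mem_univ i)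
    have hspos : 0 < s := by
      refine lt_of_le_of_ne hs0 fun hs' => ?_
      have : mu = lam := by rw [hmu, ← hs']; simp
      have h1 := hl.2
      rw [← this] at h1
      rw [h1] at hz
      exact zero_ne_one hz
    apply neg_theta_not_mem H h0
    have : -θ = s⁻¹ • lam := by
      funext i
      have := hall i
      simp only [hmu, Pi.add_apply, Pi.smul_apply, smul_eq_mul] at this
      simp only [Pi.neg_apply, Pi.smul_apply, smul_eq_mul]
      have h2 : lam i = s * (-θ i) := by linarith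
      rw [h2, ← mul_assoc, inv_mul_cancel₀ hspos.ne', one_mul]
    rw [this]
    exact KK_smul hk (by positivity)
  refine ⟨(∑ i, mu i)⁻¹ • mu, ⟨fun i => ?_, ?_⟩, KK_smul hmuK (by positivity), i0, hi0, ?_⟩
  · simp only [Pi.smul_apply, smul_eq_mul]
    exact mul_nonneg (by positivity) (hmu0 i)
  · simp only [Pi.smul_apply, smul_eq_mul]
    rw [← Finset.mul_sum, inv_mul_cancel₀ hsum.ne']
  · simp [hmui]

end Pool.Agent.Helper17.Agg
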