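import Pool.Agent.Helper17.Agg.Hidden

namespace Pool.Agent.Helper17.Agg

open Set Filter Topology

variable {E : Type*} [NormedAddCommGroup E] [NormedSpace ℝ E]

/-- Value of the aggregated quadratic form. -/
def Q (B : Fin 3 → LinearMap.BilinForm ℝ (E × ℝ)) (lam : Fin 3 → ℝ) (y : E × ℝ) : ℝ :=
  ∑ i, lam i * B i y y

/-- The set defined by the three strict inequalities. -/
def SS (B : Fin 3 → LinearMap.BilinForm ℝ (E × ℝ)) : Set E := {x | ∀ i, B i (x, 1) (x, 1) < 0}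

/-- Functionals positive on `S × {1}`. -/
def HH (B : Fin 3 → LinearMap.BilinForm ℝ (E × ℝ)) : Set ((E × ℝ) →L[ℝ] ℝ) :=
  {h | ∀ x ∈ SS B, 0 < h (x, 1)}

/-- Multipliers that are nonnegative on the kernel of `h`. -/
def KK (B : Fin 3 → LinearMap.BilinForm ℝ (E × ℝ)) (h : (E × ℝ) →L[ℝ] ℝ) : Set (Fin 3 → ℝ) :=
  {lam | ∀ y y', 0 ≤ Q B lam (h y' • y - h y • y')}

structure Hyp (B : Fin 3 → LinearMap.BilinForm ℝ (E × ℝ)) (θ : Fin 3 → ℝ) : Prop where
  symm : ∀ i x y, B i x y = B i y x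
  cont : ∀ i, Continuous fun p : (E × ℝ) × (E × ℝ) => B i p.1 p.2
  pd : ∀ y ≠ 0, 0 < Q B θ y
  dim : 3 ≤ Module.finrank ℝ E
  ne : (SS B).Nonempty
  x0 : ∃ x0, x0 ∉ convexHull ℝ (SS B)

variable {B : Fin 3 → LinearMap.BilinForm ℝ (E × ℝ)} {θ : Fin 3 → ℝ}

lemma Q_smul (lam : Fin 3 → ℝ) (r : ℝ) (y : E × ℝ) : Q B lam (r • y) = r ^ 2 * Q B lam y := by
  simp only [Q, map_smul, LinearMap.smul_apply, smul_eq_mul, Finset.mul_sum]
  exact Finset.sum_congr rfl fun i _ => by ring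

lemma Q_add_lam (lam mu : Fin 3 → ℝ) (y : E × ℝ) : Q B (lam + mu) y = Q B lam y + Q B mu y := by
  simp only [Q, Pi.add_apply, add_mul, Finset.sum_add_distrib]

lemma Q_smul_lam (r : ℝ) (lam : Fin 3 → ℝ) (y : E × ℝ) : Q B (r • lam) y = r * Q B lam y := by
  simp only [Q, Pi.smul_apply, smul_eq_mul, Finset.mul_sum]
  exact Finset.sum_congr rfl fun i _ => by ring

/-- polar form -/
def P (B : Fin 3 → LinearMap.BilinForm ℝ (E × ℝ)) (lam : Fin 3 → ℝ) (y y' : E × ℝ) : ℝ :=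
  ∑ i, lam i * B i y y'

lemma Q_comb (hs : ∀ i x y, B i x y = B i y x) (lam : Fin 3 → ℝ) (a b : ℝ) (y y' : E × ℝ) :
    Q B lam (a • y + b • y') = a ^ 2 * Q B lam y + b ^ 2 * Q B lam y' + 2 * a * b * P B lam y y' := by
  simp only [Q, P, Finset.mul_sum, ← Finset.sum_add_distrib]
  refine Finset.sum_congr rfl fun i _ => ?_
  simp only [map_add, map_smul, LinearMap.add_apply, LinearMap.smul_apply, smul_eq_mul]
  rw [hs i y' y]; ring

lemma isOpen_SS (H : Hyp B θ) : IsOpen (SS B) := by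
  have : SS B = ⋂ i, {x : E | B i (x, 1) (x, 1) < 0} := by ext; simp [SS]
  rw [this]
  refine isOpen_iInter_of_finite fun i => isOpen_lt ?_ continuous_const
  have h1 : Continuous fun x : E => (((x, (1:ℝ)), (x, (1:ℝ))) : (E × ℝ) × (E × ℝ)) := by fun_prop
  exact (H.cont i).comp h1

lemma exists_h (H : Hyp B θ) (x : E) (hx : x ∉ convexHull ℝ (SS B)) :
    ∃ h ∈ HH B, h (x, 1) = 0 := by
  obtain ⟨f, hf⟩ := geometric_hahn_banach_open_point (convex_convexHull ℝ (SS B))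
    (isOpen_SS H).convexHull hx
  refine ⟨(f x) • ContinuousLinearMap.snd ℝ E ℝ - f.comp (ContinuousLinearMap.fst ℝ E ℝ), ?_, ?_⟩
  · intro y hy
    have := hf y (subset_convexHull ℝ _ hy)
    simp; linarith
  · simp

lemma HH_ne_zero (H : Hyp B θ) {h : (E × ℝ) →L[ℝ] ℝ} (hh : h ∈ HH B) : h ≠ 0 := by
  rintro rfl
  obtain ⟨x, hx⟩ := H.ne
  have := hh x hx
  simp at this

/-- No common negative vector at infinity. -/
lemma no_inf (H : Hyp B θ) (v : E) : ∃ i, 0 ≤ B i (v, 0) (v, 0) := by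
  by_contra hcon
  push Not at hcon
  obtain ⟨x0, hx0⟩ := H.x0
  obtain ⟨h0, hh0, hz⟩ := exists_h H x0 hx0
  -- openness
  have openN : IsOpen {y : E × ℝ | ∀ i, B i y y < 0} := by
    have : {y : E × ℝ | ∀ i, B i y y < 0} = ⋂ i, {y : E × ℝ | B i y y < 0} := by ext; simp
    rw [this]
    refine isOpen_iInter_of_finite fun i => isOpen_lt ?_ continuous_const
    exact (H.cont i).comp (by fun_prop : Continuous fun y : E × ℝ => (y, y))
  -- find v' with h0 (v',0) ≠ 0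
  obtain ⟨v', hv', hne⟩ : ∃ v' : E, (∀ i, B i (v', 0) (v', 0) < 0) ∧ h0 (v', 0) ≠ 0 := by
    by_cases h1 : h0 (v, 0) = 0
    · obtain ⟨w, hw⟩ : ∃ w : E, h0 (w, 0) ≠ 0 := by
        by_contra hall
        push Not at hall
        apply HH_ne_zero H hh0
        ext y
        · simpa using hall y
        · have e1 : h0 (x0, 1) = h0 (x0, 0) + h0 (0, 1) := by
            rw [← map_add]; simp
          rw [hz, hall x0, zero_add] at e1
          simpa using e1.symm
      have hcont : Continuous fun ε : ℝ => ((v + ε • w, (0:ℝ)) : E × ℝ) := by fun_prop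
      have hopen := openN.preimage hcont
      have h0mem : (0:ℝ) ∈ (fun ε : ℝ => ((v + ε • w, (0:ℝ)) : E × ℝ)) ⁻¹'
          {y : E × ℝ | ∀ i, B i y y < 0} := by
        simp only [mem_preimage, zero_smul, add_zero]; exact hcon
      obtain ⟨δ, hδ, hball⟩ := Metric.isOpen_iff.mp hopen 0 h0mem
      refine ⟨v + (δ / 2) • w, ?_, ?_⟩
      · exact hball (by simp [abs_of_pos hδ]; linarith)
      · have e2 : h0 (v + (δ / 2) • w, 0) = h0 (v, 0) + (δ / 2) * h0 (w, 0) := by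
          rw [← smul_eq_mul, ← map_smul, ← map_add]; simp
        rw [e2, h1, zero_add]
        exact mul_ne_zero (by positivity) hw
    · exact ⟨v, hcon, h1⟩
  -- sign flip
  obtain ⟨u, hu, hneg⟩ : ∃ u : E, (∀ i, B i (u, 0) (u, 0) < 0) ∧ h0 (u, 0) < 0 := by
    rcases lt_or_gt_of_ne hne with h | h
    · exact ⟨v', hv', h⟩
    · refine ⟨-v', fun i => ?_, ?_⟩
      · have : ((-v', (0:ℝ)) : E × ℝ) = -(v', 0) := by simp
        rw [this]; simp only [map_neg, LinearMap.neg_apply, neg_neg]; exact hv' i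
      · have : ((-v', (0:ℝ)) : E × ℝ) = -(v', 0) := by simp
        rw [this, map_neg]; linarith
  have hopen2 : IsOpen {ε : ℝ | (∀ i, B i (u, ε) (u, ε) < 0) ∧ h0 (u, ε) < 0} := by
    have hcont : Continuous fun ε : ℝ => ((u, ε) : E × ℝ) := by fun_prop
    exact (openN.preimage hcont).inter (isOpen_lt (h0.continuous.comp hcont) continuous_const)
  obtain ⟨δ, hδ, hball⟩ := Metric.isOpen_iff.mp hopen2 0 ⟨hu, hneg⟩
  have hmem : (δ / 2) ∈ {ε : ℝ | (∀ i, B i (u, ε) (u, ε) < 0) ∧ h0 (u, ε) < 0} :=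
    hball (by simp [abs_of_pos hδ]; linarith)
  obtain ⟨hq, hl⟩ := hmem
  have hpos : 0 < δ / 2 := by positivity
  have hxeq : (((δ / 2)⁻¹ • u, (1:ℝ)) : E × ℝ) = (δ / 2)⁻¹ • (u, δ / 2) := by
    simp only [Prod.smul_mk, smul_eq_mul]
    rw [inv_mul_cancel₀ hpos.ne']
  have hxS : (δ / 2)⁻¹ • u ∈ SS B := by
    intro i
    rw [hxeq]
    simp only [map_smul, LinearMap.smul_apply, smul_eq_mul]
    have h2 : 0 < (δ / 2)⁻¹ := by positivity
    exact mul_neg_of_pos_of_neg h2 (mul_neg_of_pos_of_neg h2 (hq i))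
  have := hh0 _ hxS
  rw [hxeq, map_smul, smul_eq_mul] at this
  have h2 : 0 < (δ / 2)⁻¹ := by positivity
  nlinarith

lemma no_sigma (H : Hyp B θ) {h : (E × ℝ) →L[ℝ] ℝ} (hh : h ∈ HH B) (y : E × ℝ) (hy : h y = 0) :
    ∃ i, 0 ≤ B i y y := by
  by_contra hcon
  push Not at hcon
  obtain ⟨x, t⟩ := y
  by_cases ht : t = 0
  · subst ht
    obtain ⟨i, hi⟩ := no_inf H x
    exact absurd (hcon i) (not_lt.mpr hi)
  · have hxeq : ((t⁻¹ • x, (1:ℝ)) : E × ℝ) = t⁻¹ • (x, t) := by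
      simp only [Prod.smul_mk, smul_eq_mul]
      rw [inv_mul_cancel₀ ht]
    have hxS : t⁻¹ • x ∈ SS B := by
      intro i
      rw [hxeq]
      simp only [map_smul, LinearMap.smul_apply, smul_eq_mul]
      rw [← mul_assoc]
      exact mul_neg_of_pos_of_neg (mul_self_pos.mpr (inv_ne_zero ht)) (hcon i)
    have := hh _ hxS
    rw [hxeq, map_smul, hy] at this
    simp at this

lemma mem_KK_iff {h : (E × ℝ) →L[ℝ] ℝ} (h0 : h ≠ 0) (lam : Fin 3 → ℝ) :
    lam ∈ KK B h ↔ ∀ z, h z = 0 → 0 ≤ Q B lam z := by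
  constructor
  · intro hl z hz
    obtain ⟨w, hw⟩ : ∃ w, h w ≠ 0 := by
      by_contra hall
      push Not at hall
      exact h0 (by ext y <;> simp [hall])
    have := hl z w
    rw [hz, zero_smul, sub_zero, Q_smul] at this
    have hpos : 0 < (h w) ^ 2 := by positivity
    by_contra hneg
    push Not at hneg
    nlinarith
  · intro hl y y'
    apply hl
    simp only [map_sub, map_smul, smul_eq_mul]; ring

lemma KK_add {h : (E × ℝ) →L[ℝ] ℝ} {lam mu : Fin 3 → ℝ} (h1 : lam ∈ KK B h) (h2 : mu ∈ KK B h) :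
    lam + mu ∈ KK B h := by
  intro y y'
  rw [Q_add_lam]
  exact add_nonneg (h1 y y') (h2 y y')

lemma KK_smul {h : (E × ℝ) →L[ℝ] ℝ} {lam : Fin 3 → ℝ} (h1 : lam ∈ KK B h) {r : ℝ} (hr : 0 ≤ r) :
    r • lam ∈ KK B h := by
  intro y y'
  rw [Q_smul_lam]
  exact mul_nonneg hr (h1 y y')

lemma theta_mem (H : Hyp B θ) (h : (E × ℝ) →L[ℝ] ℝ) : θ ∈ KK B h := by
  intro y y'
  by_cases h0 : h y' • y - h y • y' = 0
  · rw [h0]; simp [Q]
  · exact (H.pd _ h0).le

lemma ker_dim (H : Hyp B θ) (h : (E × ℝ) →L[ℝ] ℝ) :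
    3 ≤ Module.finrank ℝ (LinearMap.ker (h : (E × ℝ) →ₗ[ℝ] ℝ)) := by
  have hfin : 0 < Module.finrank ℝ E := by have := H.dim; omega
  have : FiniteDimensional ℝ E := Module.finite_of_finrank_pos hfin
  have h1 := LinearMap.finrank_range_add_finrank_ker (h : (E × ℝ) →ₗ[ℝ] ℝ)
  have h2 : Module.finrank ℝ (LinearMap.range (h : (E × ℝ) →ₗ[ℝ] ℝ)) ≤ 1 := by
    simpa using Submodule.finrank_le (LinearMap.range (h : (E × ℝ) →ₗ[ℝ] ℝ))
  have h3 : Module.finrank ℝ (E × ℝ) = Module.finrank ℝ E + 1 := by simp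
  have := H.dim
  omega

lemma neg_theta_not_mem (H : Hyp B θ) {h : (E × ℝ) →L[ℝ] ℝ} (h0 : h ≠ 0) : -θ ∉ KK B h := by
  intro hcon
  rw [mem_KK_iff h0] at hcon
  have hd := ker_dim H h
  have : Nontrivial (LinearMap.ker (h : (E × ℝ) →ₗ[ℝ] ℝ)) :=
    Module.nontrivial_of_finrank_pos (R := ℝ) (by omega)
  obtain ⟨z, hz⟩ := exists_ne (0 : LinearMap.ker (h : (E × ℝ) →ₗ[ℝ] ℝ))
  have h1 := hcon z.1 (by simpa using z.2)
  have h2 := H.pd z.1 (by simpa using hz)
  have : Q B (-θ) z.1 = - Q B θ z.1 := by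
    have := Q_smul_lam (B := B) (-1) θ z.1
    simpa using this
  linarith

lemma exists_lam (H : Hyp B θ) {h : (E × ℝ) →L[ℝ] ℝ} (hh : h ∈ HH B) :
    ∃ lam ∈ stdSimplex ℝ (Fin 3), lam ∈ KK B h := by
  classical
  have h0 := HH_ne_zero H hh
  have hd := ker_dim H h
  set W := LinearMap.ker (h : (E × ℝ) →ₗ[ℝ] ℝ) with hW
  have hfin : 0 < Module.finrank ℝ E := by have := H.dim; omega
  have : FiniteDimensional ℝ E := Module.finite_of_finrank_pos hfin
  have hd' : ∀ y1 y2 : W, ∃ v, v ∉ Submodule.span ℝ {y1, y2} := by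
    intro y1 y2
    by_contra hall
    push Not at hall
    have htop : Submodule.span ℝ {y1, y2} = (⊤ : Submodule ℝ W) := by
      rw [eq_top_iff]; intro v _; exact hall v
    have h2 : Module.finrank ℝ (Submodule.span ℝ (({y1, y2} : Finset W) : Set W)) ≤ ({y1, y2} : Finset W).card :=
      finrank_span_finset_le_card _
    rw [Finset.coe_insert, Finset.coe_singleton, htop, finrank_top] at h2
    have h3 : ({y1, y2} : Finset W).card ≤ 2 := Finset.card_le_two
    omega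
  obtain ⟨lam, hl, hpos⟩ := slemma (W := W) hd'
    (fun i => (B i).compl₁₂ W.subtype W.subtype) (fun i x y => by simpa using H.symm i x y) θ
    (fun y hy => by
      have := H.pd y.1 (by simpa using hy)
      simpa [Q] using this)
    (fun y => by
      obtain ⟨i, hi⟩ := no_sigma H hh y.1 (by simpa [hW] using y.2)
      exact ⟨i, by simpa using hi⟩)
  refine ⟨lam, hl, ?_⟩
  rw [mem_KK_iff h0]
  intro z hz
  have := hpos ⟨z, by simpa [hW] using hz⟩
  simpa [Q] using this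

/-- the hull is contained in `S_lam`. -/
lemma hull_sub (H : Hyp B θ) {h : (E × ℝ) →L[ℝ] ℝ} (hh : h ∈ HH B) {lam : Fin 3 → ℝ}
    (hlam : lam ∈ stdSimplex ℝ (Fin 3)) (hk : lam ∈ KK B h) :
    convexHull ℝ (SS B) ⊆ {x | Q B lam (x, 1) < 0} := by
  have h0 := HH_ne_zero H hh
  rw [mem_KK_iff h0] at hk
  have hsub : SS B ⊆ {x | Q B lam (x, 1) < 0 ∧ 0 < h (x, 1)} := by
    intro x hx
    refine ⟨?_, hh x hx⟩
    simp only [Q, Fin.sum_univ_three]
    have hs := hlam.2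
    simp only [Fin.sum_univ_three] at hs
    have a0 := hlam.1 0; have a1 := hlam.1 1; have a2 := hlam.1 2
    have b0 := hx 0; have b1 := hx 1; have b2 := hx 2
    by_cases e0 : lam 0 = 0
    · by_cases e1 : lam 1 = 0
      · have : lam 2 = 1 := by linarith
        rw [e0, e1, this]; linarith
      · have : 0 < lam 1 := lt_of_le_of_ne a1 (Ne.symm e1)
        nlinarith [mul_neg_of_pos_of_neg this b1, mul_nonpos_of_nonneg_of_nonpos a0 b0.le,
          mul_nonpos_of_nonneg_of_nonpos a2 b2.le]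
    · have : 0 < lam 0 := lt_of_le_of_ne a0 (Ne.symm e0)
      nlinarith [mul_neg_of_pos_of_neg this b0, mul_nonpos_of_nonneg_of_nonpos a1 b1.le,
          mul_nonpos_of_nonneg_of_nonpos a2 b2.le]
  have hconv : Convex ℝ {x : E | Q B lam (x, 1) < 0 ∧ 0 < h (x, 1)} := by
    rintro x ⟨hx1, hx2⟩ y ⟨hy1, hy2⟩ a b ha hb hab
    have hpt : ((a • x + b • y, (1:ℝ)) : E × ℝ) = a • (x, (1:ℝ)) + b • (y, (1:ℝ)) := by
      simp [hab]
    simp only [mem_ofPred_eq]
    rw [hpt]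
    set X : E × ℝ := (x, 1)
    set Y : E × ℝ := (y, 1)
    have hz := hk (h Y • X + (-h X) • Y) (by simp only [map_add, map_smul, smul_eq_mul]; ring)
    rw [Q_comb H.symm] at hz
    rw [Q_comb H.symm]
    have hP : P B lam X Y < 0 := by
      by_contra hcon
      push Not at hcon
      have t1 : h Y ^ 2 * Q B lam X < 0 := mul_neg_of_pos_of_neg (by positivity) hx1
      have t2 : (-h X) ^ 2 * Q B lam Y < 0 :=
        mul_neg_of_pos_of_neg (by rw [neg_sq]; positivity) hy1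
      have t3 : 0 ≤ h Y * h X * P B lam X Y := mul_nonneg (mul_nonneg hy2.le hx2.le) hcon
      nlinarith
    constructor
    · rcases ha.eq_or_lt with h' | h'
      · have hb1 : b = 1 := by linarith
        rw [← h', hb1]; simp; exact hy1
      · have t1 : a ^ 2 * Q B lam X < 0 := mul_neg_of_pos_of_neg (by positivity) hx1
        have t2 : b ^ 2 * Q B lam Y ≤ 0 := mul_nonpos_of_nonneg_of_nonpos (by positivity) hy1.le
        have t3 : 2 * a * b * P B lam X Y ≤ 0 :=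
          mul_nonpos_of_nonneg_of_nonpos (by positivity) hP.le
        linarith
    · simp only [map_add, map_smul, smul_eq_mul]
      rcases ha.eq_or_lt with h' | h'
      · have hb1 : b = 1 := by linarith
        rw [← h', hb1]; simpa using hy2
      · have := mul_pos h' hx2
        have := mul_nonneg hb hy2.le
        linarith
  exact (convexHull_min hsub hconv).trans fun x hx => hx.1

/-- at most one negative direction. -/
lemma one_neg (H : Hyp B θ) {h : (E × ℝ) →L[ℝ] ℝ} (hh : h ∈ HH B) {lam : Fin 3 → ℝ}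
    (hk : lam ∈ KK B h) (y y' : E × ℝ) :
    ∃ a b : ℝ, (a ≠ 0 ∨ b ≠ 0) ∧ 0 ≤ Q B lam (a • y + b • y') := by
  have h0 := HH_ne_zero H hh
  rw [mem_KK_iff h0] at hk
  by_cases hy : h y = 0
  · refine ⟨1, 0, Or.inl one_ne_zero, ?_⟩
    apply hk; simp [hy]
  · refine ⟨h y', -h y, Or.inr (neg_ne_zero.mpr hy), ?_⟩
    apply hk
    simp only [map_add, map_smul, smul_eq_mul]; ring

end Pool.Agent.Helper17.Agg
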