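import Pool.Agent.Helper17.Agg.Comb

namespace Pool.Agent.Helper17.Agg

open Set Filter Topology

variable {E : Type*} [NormedAddCommGroup E] [NormedSpace ℝ E]
variable {B : Fin 3 → LinearMap.BilinForm ℝ (E × ℝ)} {θ : Fin 3 → ℝ}

lemma trich : ∀ i j k l : Fin 3, i ≠ j → j ≠ k → i ≠ k → l = i ∨ l = j ∨ l = k := by decide

lemma others : ∀ i : Fin 3, ∃ j k : Fin 3, i ≠ j ∧ j ≠ k ∧ i ≠ k := by decide

/-- The covering property of a finite set of multipliers. -/
def Covers (B : Fin 3 → LinearMap.BilinForm ℝ (E × ℝ)) (F : Finset (Fin 3 → ℝ)) : Prop :=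
  F.card ≤ 4 ∧ (∀ lam ∈ F, lam ∈ Om B) ∧
    ∀ h ∈ HH B, ∀ y : E × ℝ, h y = 0 → ∃ lam ∈ F, 0 ≤ Q B lam y

lemma case_two_edges (H : Hyp B θ) {i j k : Fin 3} (hij : i ≠ j) (hjk : j ≠ k) (hik : i ≠ k)
    (hall : ∀ h ∈ HH B, ∃ lam ∈ stdSimplex ℝ (Fin 3), lam ∈ KK B h ∧ (lam j = 0 ∨ lam k = 0)) :
    ∃ F, Covers B F := by
  classical
  have hO := isCompact_Om H
  have hO' : Om B ⊆ stdSimplex ℝ (Fin 3) := fun lam hl => hl.1
  obtain ⟨F1, c1, m1, v1⟩ := edge hO hO' hij hjk hik
  obtain ⟨F2, c2, m2, v2⟩ := edge hO hO' hik hjk.symm hij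
  refine ⟨F1 ∪ F2, ?_, ?_, ?_⟩
  · exact (Finset.card_union_le _ _).trans (by omega)
  · intro lam hl
    rcases Finset.mem_union.mp hl with h | h
    · exact m1 lam h
    · exact m2 lam h
  · intro h hh y hy
    obtain ⟨lam, hl, hk, h2⟩ := hall h hh
    have hq : 0 ≤ Q B lam y := (mem_KK_iff (HH_ne_zero H hh) lam).mp hk y hy
    rcases h2 with h2 | h2
    · obtain ⟨mu, hmu, hp⟩ := v2 lam ⟨hl, h, hh, hk⟩ h2 (fun i => B i y y) hq
      exact ⟨mu, Finset.mem_union_right _ hmu, hp⟩
    · obtain ⟨mu, hmu, hp⟩ := v1 lam ⟨hl, h, hh, hk⟩ h2 (fun i => B i y y) hq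
      exact ⟨mu, Finset.mem_union_left _ hmu, hp⟩

lemma case_one_edge (H : Hyp B θ) {i j k : Fin 3} (hij : i ≠ j) (hjk : j ≠ k) (hik : i ≠ k)
    (hall : ∀ h ∈ HH B, ∃ lam ∈ stdSimplex ℝ (Fin 3), lam ∈ KK B h ∧ lam k = 0) :
    ∃ F, Covers B F :=
  case_two_edges H hij hjk hik fun h hh => by
    obtain ⟨lam, hl, hk, h2⟩ := hall h hh
    exact ⟨lam, hl, hk, Or.inr h2⟩

lemma case_vertices (H : Hyp B θ) {i j k : Fin 3} (hij : i ≠ j) (hjk : j ≠ k) (hik : i ≠ k)
    (hi : (Pi.single i 1 : Fin 3 → ℝ) ∈ Om B) (hj : (Pi.single j 1 : Fin 3 → ℝ) ∈ Om B) :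
    ∃ F, Covers B F := by
  classical
  have hO := isCompact_Om H
  have hO' : Om B ⊆ stdSimplex ℝ (Fin 3) := fun lam hl => hl.1
  -- edges i-k (lam j = 0) and j-k (lam i = 0)
  obtain ⟨b, hb, vb⟩ := edge' hO hO' hik hjk.symm hij hi
  obtain ⟨b', hb', vb'⟩ := edge' hO hO' hjk hik.symm hij.symm hj
  refine ⟨{Pi.single i 1, Pi.single j 1, b, b'}, Finset.card_le_four, ?_, ?_⟩
  · intro lam hl
    simp only [Finset.mem_insert, Finset.mem_singleton] at hl
    rcases hl with rfl | rfl | rfl | rfl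
    · exact hi
    · exact hj
    · exact hb
    · exact hb'
  · intro h hh y hy
    obtain ⟨lam, hl, hk, l, -, hl0⟩ := exists_NN H hh
    have hq : 0 ≤ Q B lam y := (mem_KK_iff (HH_ne_zero H hh) lam).mp hk y hy
    have hlijk : l = i ∨ l = j ∨ l = k := trich i j k l hij hjk hik
    rcases hlijk with rfl | rfl | rfl
    · rcases vb' lam ⟨hl, h, hh, hk⟩ hl0 (fun i => B i y y) hq with h1 | h1
      · exact ⟨_, by simp, h1⟩
      · exact ⟨b', by simp, h1⟩
    · rcases vb lam ⟨hl, h, hh, hk⟩ hl0 (fun i => B i y y) hq with h1 | h1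
      · exact ⟨_, by simp, h1⟩
      · exact ⟨b, by simp, h1⟩
    · -- edge between the two vertices
      have hq' : 0 ≤ lam i * B i y y + lam j * B j y y := by
        have := hq
        unfold Q at this
        rw [sum3 hij hjk hik, hl0] at this
        linarith
      have n1 := hl.1 i
      have n2 := hl.1 j
      by_cases hbi : 0 ≤ B i y y
      · refine ⟨Pi.single i 1, by simp, ?_⟩
        unfold Q
        rw [sum3 hij hjk hik]
        simpa [Pi.single_apply, hij.symm, hik.symm] using hbi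
      · refine ⟨Pi.single j 1, by simp, ?_⟩
        unfold Q
        rw [sum3 hij hjk hik]
        push Not at hbi
        have : 0 ≤ B j y y := by
          by_contra hcon
          push Not at hcon
          have s := hl.2
          rw [sum3 hij hjk hik, hl0] at s
          have t1 := mul_nonpos_of_nonneg_of_nonpos n1 hbi.le
          have t2 := mul_nonpos_of_nonneg_of_nonpos n2 hcon.le
          have e1 : lam i * B i y y = 0 := by linarith
          have e2 : lam j * B j y y = 0 := by linarith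
          have f1 : lam i = 0 := by
            rcases mul_eq_zero.mp e1 with h' | h'
            · exact h'
            · exact absurd h' hbi.ne
          have f2 : lam j = 0 := by
            rcases mul_eq_zero.mp e2 with h' | h'
            · exact h'
            · exact absurd h' hcon.ne
          rw [f1, f2] at s
          norm_num at s
        simpa [Pi.single_apply, hij, hjk.symm] using this

/-- algebraic contradiction: `p` on the open edge `ij` and `p'` with `p' j = 0 < p' k`. -/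
lemma alg_contra (H : Hyp B θ) {i j k : Fin 3} (hij : i ≠ j) (hjk : j ≠ k) (hik : i ≠ k)
    (hθ : ∀ l, θ l < 0) (hi : (Pi.single i 1 : Fin 3 → ℝ) ∉ Om B)
    (hj : (Pi.single j 1 : Fin 3 → ℝ) ∉ Om B) {h : (E × ℝ) →L[ℝ] ℝ} (hh : h ∈ HH B)
    {p p' : Fin 3 → ℝ} (hp : p ∈ KK B h) (hp' : p' ∈ KK B h) (pk : p k = 0) (pi : 0 < p i)
    (pj : 0 < p j) (pj' : p' j = 0) (pi' : 0 ≤ p' i) (pk' : 0 < p' k) : False := by
  have hvert : ∀ l : Fin 3, (Pi.single l 1 : Fin 3 → ℝ) ∈ stdSimplex ℝ (Fin 3) := fun l =>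
    single_mem_stdSimplex ℝ l
  have hθi := hθ i
  have hθj := hθ j
  have hθk := hθ k
  have hlijk : ∀ l : Fin 3, l = i ∨ l = j ∨ l = k := fun l => trich i j k l hij hjk hik
  obtain ⟨β, hβ⟩ : ∃ β, β = (-θ k) / p' k := ⟨_, rfl⟩
  obtain ⟨α, hα⟩ : ∃ α, α = (-θ j) / p j := ⟨_, rfl⟩
  have hβ0 : 0 < β := by rw [hβ]; exact div_pos (by linarith) pk'
  have hα0 : 0 < α := by rw [hα]; exact div_pos (by linarith) pj
  have hβk : β * p' k = -θ k := by rw [hβ]; field_simp
  have hαj : α * p j = -θ j := by rw [hα]; field_simp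
  obtain ⟨X, hX⟩ : ∃ X, X = α * p i + β * p' i + θ i := ⟨_, rfl⟩
  have hmem : α • p + β • p' + θ ∈ KK B h :=
    KK_add (KK_add (KK_smul hp hα0.le) (KK_smul hp' hβ0.le)) (theta_mem H h)
  rcases lt_trichotomy X 0 with hneg | hzero | hpos
  · -- raise alpha
    obtain ⟨α', hα'⟩ : ∃ α', α' = (-θ i - β * p' i) / p i := ⟨_, rfl⟩
    have hα'i : α' * p i = -θ i - β * p' i := by rw [hα']; field_simp
    have hlt : α < α' := by
      by_contra hcon
      push Not at hcon
      have : α' * p i ≤ α * p i := mul_le_mul_of_nonneg_right hcon pi.le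
      linarith
    have hmem' : α' • p + β • p' + θ ∈ KK B h :=
      KK_add (KK_add (KK_smul hp (hα0.le.trans hlt.le)) (KK_smul hp' hβ0.le)) (theta_mem H h)
    have hY : 0 < α' * p j + θ j := by
      have : α * p j < α' * p j := mul_lt_mul_of_pos_right hlt pj
      linarith
    apply hj
    refine ⟨hvert j, h, hh, ?_⟩
    have e : (Pi.single j 1 : Fin 3 → ℝ) = (α' * p j + θ j)⁻¹ • (α' • p + β • p' + θ) := by
      funext l
      rcases hlijk l with rfl | rfl | rfl
      · simp only [Pi.single_apply, hij, if_false, Pi.smul_apply, Pi.add_apply, smul_eq_mul]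
        have : α' * p l + β * p' l + θ l = 0 := by linarith
        rw [this, mul_zero]
      · simp only [Pi.single_apply, if_true, Pi.smul_apply, Pi.add_apply, smul_eq_mul, pj',
          mul_zero, add_zero]
        rw [inv_mul_cancel₀ hY.ne']
      · simp only [Pi.single_apply, hjk.symm, if_false, Pi.smul_apply, Pi.add_apply, smul_eq_mul,
          pk, mul_zero, zero_add]
        have : β * p' l + θ l = 0 := by linarith
        rw [this, mul_zero]
    rw [e]
    exact KK_smul hmem' (by positivity)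
  · -- -θ ∈ K
    apply neg_theta_not_mem H (HH_ne_zero H hh)
    have e : -θ = α • p + β • p' := by
      funext l
      rcases hlijk l with rfl | rfl | rfl
      · simp only [Pi.neg_apply, Pi.add_apply, Pi.smul_apply, smul_eq_mul]; linarith
      · simp only [Pi.neg_apply, Pi.add_apply, Pi.smul_apply, smul_eq_mul, pj', mul_zero,
          add_zero]; linarith
      · simp only [Pi.neg_apply, Pi.add_apply, Pi.smul_apply, smul_eq_mul, pk, mul_zero,
          zero_add]; linarith
    rw [e]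
    exact KK_add (KK_smul hp hα0.le) (KK_smul hp' hβ0.le)
  · apply hi
    refine ⟨hvert i, h, hh, ?_⟩
    have e : (Pi.single i 1 : Fin 3 → ℝ) = X⁻¹ • (α • p + β • p' + θ) := by
      funext l
      rcases hlijk l with rfl | rfl | rfl
      · simp only [Pi.single_apply, if_true, Pi.smul_apply, Pi.add_apply, smul_eq_mul]
        rw [← hX, inv_mul_cancel₀ hpos.ne']
      · simp only [Pi.single_apply, hij.symm, if_false, Pi.smul_apply, Pi.add_apply,
          smul_eq_mul, pj', mul_zero, add_zero]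
        have : α * p l + θ l = 0 := by linarith
        rw [this, mul_zero]
      · simp only [Pi.single_apply, hik.symm, if_false, Pi.smul_apply, Pi.add_apply, smul_eq_mul,
          pk, mul_zero, zero_add]
        have : β * p' l + θ l = 0 := by linarith
        rw [this, mul_zero]
    rw [e]
    exact KK_smul hmem (by positivity)

lemma vertex_of {i j k : Fin 3} (hij : i ≠ j) (hjk : j ≠ k) (hik : i ≠ k) {p : Fin 3 → ℝ}
    (hp : p ∈ stdSimplex ℝ (Fin 3)) (hj : p j = 0) (hk : p k = 0) : p = Pi.single i 1 := by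
  have hlijk : ∀ l : Fin 3, l = i ∨ l = j ∨ l = k := fun l => trich i j k l hij hjk hik
  have s := hp.2
  rw [sum3 hij hjk hik, hj, hk] at s
  funext l
  rcases hlijk l with rfl | rfl | rfl
  · simp only [Pi.single_eq_same]; linarith
  · simp only [Pi.single_apply, hij.symm, if_false]; exact hj
  · simp only [Pi.single_apply, hik.symm, if_false]; exact hk

lemma case_no_vertices (H : Hyp B θ) {i j k : Fin 3} (hij : i ≠ j) (hjk : j ≠ k) (hik : i ≠ k)
    (hθ : ∀ l, θ l < 0) (hi : (Pi.single i 1 : Fin 3 → ℝ) ∉ Om B)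
    (hj : (Pi.single j 1 : Fin 3 → ℝ) ∉ Om B) : ∃ F, Covers B F := by
  have hlijk : ∀ l : Fin 3, l = i ∨ l = j ∨ l = k := fun l => trich i j k l hij hjk hik
  -- compact sets
  let C0 : Set (Fin 3 → ℝ) := stdSimplex ℝ (Fin 3) ∩ {lam | lam k = 0}
  let C1 : Set (Fin 3 → ℝ) := stdSimplex ℝ (Fin 3) ∩ {lam | lam i = 0 ∨ lam j = 0}
  have hC0 : IsCompact C0 :=
    (isCompact_stdSimplex ℝ (Fin 3)).inter_right (isClosed_eq (continuous_apply k) continuous_const)
  have hC1 : IsCompact C1 :=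
    (isCompact_stdSimplex ℝ (Fin 3)).inter_right
      ((isClosed_eq (continuous_apply i) continuous_const).union
        (isClosed_eq (continuous_apply j) continuous_const))
  by_cases h0 : ∃ h ∈ HH B, ∃ lam ∈ C0, lam ∈ KK B h
  · by_cases h1 : ∃ h ∈ HH B, ∃ lam ∈ C1, lam ∈ KK B h
    · exfalso
      obtain ⟨g0, hg0, l0, hm0, hk0⟩ := h0
      obtain ⟨g1, hg1, l1, hm1, hk1⟩ := h1
      have hcl0 := isClosed_T H g0 g1 hC0
      have hcl1 := isClosed_T H g0 g1 hC1
      have hpre : IsPreconnected (Icc (0:ℝ) 1) := isPreconnected_Icc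
      rw [isPreconnected_closed_iff] at hpre
      obtain ⟨t, ht, ht0, ht1⟩ := hpre _ _ hcl0 hcl1 (by
        intro t ht
        obtain ⟨lam, hl, hk, l, -, hl0⟩ := exists_NN H (HH_seg hg0 hg1 ht)
        rcases hlijk l with rfl | rfl | rfl
        · exact Or.inr ⟨ht, lam, ⟨hl, Or.inl hl0⟩, hk⟩
        · exact Or.inr ⟨ht, lam, ⟨hl, Or.inr hl0⟩, hk⟩
        · exact Or.inl ⟨ht, lam, ⟨hl, hl0⟩, hk⟩)
        ⟨0, ⟨le_rfl, zero_le_one⟩, ⟨le_rfl, zero_le_one⟩, l0, hm0, by simpa using hk0⟩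
        ⟨1, ⟨zero_le_one, le_rfl⟩, ⟨zero_le_one, le_rfl⟩, l1, hm1, by simpa using hk1⟩
      obtain ⟨-, p, ⟨hpS, pk⟩, hpK⟩ := ht0
      obtain ⟨-, p', ⟨hpS', hp0'⟩, hpK'⟩ := ht1
      have hh := HH_seg hg0 hg1 ht
      have pk0 : p k = 0 := pk
      have pi : 0 < p i := by
        refine lt_of_le_of_ne (hpS.1 i) fun hz => hj ?_
        rw [← vertex_of hij.symm hik hjk hpS hz.symm pk0]
        exact ⟨hpS, _, hh, hpK⟩
      have pj : 0 < p j := by
        refine lt_of_le_of_ne (hpS.1 j) fun hz => hi ?_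
        rw [← vertex_of hij hjk hik hpS hz.symm pk0]
        exact ⟨hpS, _, hh, hpK⟩
      rcases hp0' with hpi' | hpj'
      · have pk' : 0 < p' k := by
          refine lt_of_le_of_ne (hpS'.1 k) fun hz => hj ?_
          rw [← vertex_of hij.symm hik hjk hpS' hpi' hz.symm]
          exact ⟨hpS', _, hh, hpK'⟩
        exact alg_contra H hij.symm hik hjk hθ hj hi hh hpK hpK' pk0 pj pi hpi' (hpS'.1 j) pk'
      · have pk' : 0 < p' k := by
          refine lt_of_le_of_ne (hpS'.1 k) fun hz => hi ?_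
          rw [← vertex_of hij hjk hik hpS' hpj' hz.symm]
          exact ⟨hpS', _, hh, hpK'⟩
        exact alg_contra H hij hjk hik hθ hi hj hh hpK hpK' pk0 pi pj hpj' (hpS'.1 i) pk'
    · -- only the edge `lam k = 0`
      push Not at h1
      refine case_one_edge H hij hjk hik fun h hh => ?_
      obtain ⟨lam, hl, hk, l, -, hl0⟩ := exists_NN H hh
      rcases hlijk l with rfl | rfl | rfl
      · exact absurd hk (h1 h hh lam ⟨hl, Or.inl hl0⟩)
      · exact absurd hk (h1 h hh lam ⟨hl, Or.inr hl0⟩)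
      · exact ⟨lam, hl, hk, hl0⟩
  · push Not at h0
    refine case_two_edges H hik.symm hij hjk.symm fun h hh => ?_
    obtain ⟨lam, hl, hk, l, -, hl0⟩ := exists_NN H hh
    rcases hlijk l with rfl | rfl | rfl
    · exact ⟨lam, hl, hk, Or.inl hl0⟩
    · exact ⟨lam, hl, hk, Or.inr hl0⟩
    · exact absurd hk (h0 h hh lam ⟨hl, hl0⟩)

theorem core (H : Hyp B θ) : ∃ F, Covers B F := by
  by_cases hall : ∀ l, θ l < 0
  · by_cases v0 : (Pi.single 0 1 : Fin 3 → ℝ) ∈ Om B
    · by_cases v1 : (Pi.single 1 1 : Fin 3 → ℝ) ∈ Om B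
      · exact case_vertices H (i := 0) (j := 1) (k := 2) (by decide) (by decide) (by decide) v0 v1
      · by_cases v2 : (Pi.single 2 1 : Fin 3 → ℝ) ∈ Om B
        · exact case_vertices H (i := 0) (j := 2) (k := 1) (by decide) (by decide) (by decide) v0 v2
        · exact case_no_vertices H (i := 1) (j := 2) (k := 0) (by decide) (by decide) (by decide)
            hall v1 v2
    · by_cases v1 : (Pi.single 1 1 : Fin 3 → ℝ) ∈ Om B
      · by_cases v2 : (Pi.single 2 1 : Fin 3 → ℝ) ∈ Om B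
        · exact case_vertices H (i := 1) (j := 2) (k := 0) (by decide) (by decide) (by decide) v1 v2
        · exact case_no_vertices H (i := 0) (j := 2) (k := 1) (by decide) (by decide) (by decide)
            hall v0 v2
      · exact case_no_vertices H (i := 0) (j := 1) (k := 2) (by decide) (by decide) (by decide)
            hall v0 v1
  · push Not at hall
    obtain ⟨i, hi⟩ := hall
    obtain ⟨j, k, hij, hjk, hik⟩ := others i
    have hlijk : ∀ l : Fin 3, l = i ∨ l = j ∨ l = k := fun l => trich i j k l hij hjk hik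
    refine case_two_edges H hij hjk hik fun h hh => ?_
    obtain ⟨lam, hl, hk, l, hneg, hl0⟩ := exists_NN H hh
    rcases hlijk l with rfl | rfl | rfl
    · exact absurd hneg (not_lt.mpr hi)
    · exact ⟨lam, hl, hk, Or.inl hl0⟩
    · exact ⟨lam, hl, hk, Or.inr hl0⟩

/-- If `S` is empty then no vector is negative for all three forms. -/
lemma hno_of_empty (hc : ∀ i, Continuous fun p : (E × ℝ) × (E × ℝ) => B i p.1 p.2)
    (he : SS B = ∅) (y : E × ℝ) : ∃ i, 0 ≤ B i y y := by
  by_contra hcon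
  push Not at hcon
  have openN : IsOpen {t : ℝ | ∀ i, B i (y.1, y.2 + t) (y.1, y.2 + t) < 0} := by
    have : {t : ℝ | ∀ i, B i (y.1, y.2 + t) (y.1, y.2 + t) < 0} =
        ⋂ i, {t : ℝ | B i (y.1, y.2 + t) (y.1, y.2 + t) < 0} := by ext; simp
    rw [this]
    refine isOpen_iInter_of_finite fun i => isOpen_lt ?_ continuous_const
    exact (hc i).comp (by fun_prop : Continuous fun t : ℝ =>
      (((y.1, y.2 + t), (y.1, y.2 + t)) : (E × ℝ) × (E × ℝ)))
  have hmem : (0:ℝ) ∈ {t : ℝ | ∀ i, B i (y.1, y.2 + t) (y.1, y.2 + t) < 0} := by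
    intro i
    rw [add_zero]; exact hcon i
  obtain ⟨δ, hδ, hball⟩ := Metric.isOpen_iff.mp openN 0 hmem
  obtain ⟨t, ht, hne⟩ : ∃ t ∈ Metric.ball (0:ℝ) δ, y.2 + t ≠ 0 := by
    by_cases h0 : y.2 = 0
    · refine ⟨δ / 2, by simp [abs_of_pos hδ]; linarith, ?_⟩
      rw [h0]; positivity
    · exact ⟨0, by simpa using hδ, by simpa using h0⟩
  have hq := hball ht
  set s := y.2 + t with hs
  have hxeq : ((s⁻¹ • y.1, (1:ℝ)) : E × ℝ) = s⁻¹ • (y.1, s) := by
    simp only [Prod.smul_mk, smul_eq_mul]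
    rw [inv_mul_cancel₀ hne]
  have hx : s⁻¹ • y.1 ∈ SS B := by
    intro i
    rw [hxeq]
    simp only [map_smul, LinearMap.smul_apply, smul_eq_mul]
    rw [← mul_assoc]
    exact mul_neg_of_pos_of_neg (mul_self_pos.mpr (inv_ne_zero hne)) (hq i)
  rw [he] at hx
  exact hx

end Pool.Agent.Helper17.Agg
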