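import Mathlib

/-! Hidden convexity for three real quadratic forms with a positive definite linear combination
in dimension at least three, and the resulting S-lemma. -/

namespace Pool.Agent.Helper17.Agg

open Set

variable {W : Type*} [AddCommGroup W] [Module ℝ W]

/-- Segment lemma: two isotropic vectors, mutually orthogonal for `M`, with `G` of opposite signs. -/
lemma seg_zero (M G : LinearMap.BilinForm ℝ W) (hM : ∀ x y, M x y = M y x)
    (hG : ∀ x y, G x y = G y x) (y1 y2 : W) (h11 : M y1 y1 = 0) (h22 : M y2 y2 = 0)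
    (h12 : M y1 y2 = 0) (g1 : G y1 y1 < 0) (g2 : 0 < G y2 y2) :
    ∃ y, y ≠ 0 ∧ M y y = 0 ∧ G y y = 0 := by
  let φ : ℝ → ℝ := fun t => G ((1 - t) • y1 + t • y2) ((1 - t) • y1 + t • y2)
  have hφ : ∀ t, φ t = (1 - t) ^ 2 * G y1 y1 + 2 * t * (1 - t) * G y1 y2 + t ^ 2 * G y2 y2 := by
    intro t
    simp only [φ, map_add, map_smul, LinearMap.add_apply, LinearMap.smul_apply, smul_eq_mul]
    rw [hG y2 y1]; ring
  have hcont : Continuous φ := by
    have : φ = fun t => (1 - t) ^ 2 * G y1 y1 + 2 * t * (1 - t) * G y1 y2 + t ^ 2 * G y2 y2 := by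
      funext t; exact hφ t
    rw [this]; fun_prop
  have h0 : φ 0 < 0 := by rw [hφ]; simpa using g1
  have h1 : 0 < φ 1 := by rw [hφ]; simpa using g2
  obtain ⟨t, ht, hzero⟩ := intermediate_value_Icc (by norm_num : (0:ℝ) ≤ 1) hcont.continuousOn
    (show (0:ℝ) ∈ Icc (φ 0) (φ 1) from ⟨h0.le, h1.le⟩)
  refine ⟨(1 - t) • y1 + t • y2, ?_, ?_, hzero⟩
  · intro h
    -- then G y1 y1 and G y2 y2 have the same sign
    by_cases ht0 : t = 0
    · subst ht0; exact h0.ne hzero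
    · have : y2 = (-(1 - t) / t) • y1 := by
        have h2 : t • y2 = -((1 - t) • y1) := by
          rw [eq_neg_iff_add_eq_zero, add_comm]; exact h
        have : y2 = t⁻¹ • (t • y2) := by rw [smul_smul, inv_mul_cancel₀ ht0, one_smul]
        rw [this, h2, smul_neg, smul_smul, ← neg_smul]; congr 1; ring
      rw [this] at g2
      simp only [map_smul, LinearMap.smul_apply, smul_eq_mul] at g2
      nlinarith [mul_self_nonneg (-(1 - t) / t)]
  · simp only [map_add, map_smul, LinearMap.add_apply, LinearMap.smul_apply, smul_eq_mul]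
    rw [hM y2 y1, h11, h22, h12]; ring

lemma path_zero (hd : ∀ y1 y2 : W, ∃ v, v ∉ Submodule.span ℝ {y1, y2})
    (M G : LinearMap.BilinForm ℝ W) (hM : ∀ x y, M x y = M y x)
    (hG : ∀ x y, G x y = G y x) (y1 y2 : W) (h11 : M y1 y1 = 0) (h22 : M y2 y2 = 0)
    (g1 : G y1 y1 < 0) (g2 : 0 < G y2 y2) :
    ∃ y, y ≠ 0 ∧ M y y = 0 ∧ G y y = 0 := by
  by_cases h12 : M y1 y2 = 0
  · exact seg_zero M G hM hG y1 y2 h11 h22 h12 g1 g2
  obtain ⟨v, hv⟩ := hd y1 y2
  set y3 : W := v - (M v y2 / M y1 y2) • y1 - (M v y1 / M y1 y2) • y2 with hy3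
  have hy3span : y3 ∉ Submodule.span ℝ {y1, y2} := by
    intro h
    apply hv
    have : v = y3 + (M v y2 / M y1 y2) • y1 + (M v y1 / M y1 y2) • y2 := by rw [hy3]; abel
    rw [this]
    refine Submodule.add_mem _ (Submodule.add_mem _ h (Submodule.smul_mem _ _ ?_))
      (Submodule.smul_mem _ _ ?_)
    · exact Submodule.subset_span (by simp)
    · exact Submodule.subset_span (by simp)
  have h31 : M y3 y1 = 0 := by
    rw [hy3]
    simp only [map_sub, map_smul, LinearMap.sub_apply, LinearMap.smul_apply, smul_eq_mul]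
    rw [h11, hM y2 y1]; field_simp; ring
  have h32 : M y3 y2 = 0 := by
    rw [hy3]
    simp only [map_sub, map_smul, LinearMap.sub_apply, LinearMap.smul_apply, smul_eq_mul]
    rw [h22]; field_simp; ring
  by_cases h33 : M y3 y3 = 0
  · rcases lt_trichotomy (G y3 y3) 0 with hg | hg | hg
    · exact seg_zero M G hM hG y3 y2 h33 h22 h32 hg g2
    · refine ⟨y3, ?_, h33, hg⟩
      rintro h; exact hy3span (by rw [h]; exact Submodule.zero_mem _)
    · exact seg_zero M G hM hG y1 y3 h11 h33 (by rw [hM]; exact h31) g1 hg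
  · -- the genuinely curved case
    obtain ⟨σ, hσ, hpos⟩ : ∃ σ : ℝ, σ ^ 2 = 1 ∧ 0 ≤ -(2 * σ * M y1 y2 / M y3 y3) := by
      by_cases h : 0 ≤ -(2 * M y1 y2 / M y3 y3)
      · exact ⟨1, by norm_num, by simpa using h⟩
      · refine ⟨-1, by norm_num, ?_⟩
        push Not at h
        have : -(2 * (-1) * M y1 y2 / M y3 y3) = 2 * M y1 y2 / M y3 y3 := by ring
        rw [this]; linarith
    set κ := -(2 * σ * M y1 y2 / M y3 y3) with hκ
    have hκ' : κ * M y3 y3 = -(2 * σ * M y1 y2) := by rw [hκ]; field_simp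
    let c : ℝ → ℝ := fun t => Real.sqrt (κ * (t * (1 - t)))
    let Y : ℝ → W := fun t => (1 - t) • y1 + (σ * t) • y2 + c t • y3
    let φ : ℝ → ℝ := fun t => G (Y t) (Y t)
    have hφ : ∀ t, φ t = (1 - t) ^ 2 * G y1 y1 + (σ * t) ^ 2 * G y2 y2 + (c t) ^ 2 * G y3 y3
        + 2 * ((1 - t) * (σ * t)) * G y1 y2 + 2 * ((1 - t) * c t) * G y1 y3
        + 2 * ((σ * t) * c t) * G y2 y3 := by
      intro t
      simp only [φ, Y, map_add, map_smul, LinearMap.add_apply, LinearMap.smul_apply, smul_eq_mul]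
      rw [hG y2 y1, hG y3 y1, hG y3 y2]; ring
    have hccont : Continuous c := by
      simp only [c]; fun_prop
    have hcont : Continuous φ := by
      have : φ = fun t => (1 - t) ^ 2 * G y1 y1 + (σ * t) ^ 2 * G y2 y2 + (c t) ^ 2 * G y3 y3
        + 2 * ((1 - t) * (σ * t)) * G y1 y2 + 2 * ((1 - t) * c t) * G y1 y3
        + 2 * ((σ * t) * c t) * G y2 y3 := by
        funext t; exact hφ t
      rw [this]; fun_prop
    have c0 : c 0 = 0 := by simp [c]
    have c1 : c 1 = 0 := by simp [c]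
    have h0 : φ 0 < 0 := by rw [hφ, c0]; simpa using g1
    have h1 : 0 < φ 1 := by
      rw [hφ, c1]
      have : (1 - (1:ℝ)) ^ 2 * G y1 y1 + (σ * 1) ^ 2 * G y2 y2 + (0:ℝ) ^ 2 * G y3 y3
        + 2 * ((1 - 1) * (σ * 1)) * G y1 y2 + 2 * ((1 - 1) * 0) * G y1 y3
        + 2 * ((σ * 1) * 0) * G y2 y3 = σ ^ 2 * G y2 y2 := by ring
      rw [this, hσ]; simpa using g2
    obtain ⟨t, ht, hzero⟩ := intermediate_value_Icc (by norm_num : (0:ℝ) ≤ 1) hcont.continuousOn
      (show (0:ℝ) ∈ Icc (φ 0) (φ 1) from ⟨h0.le, h1.le⟩)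
    have hc2 : (c t) ^ 2 = κ * (t * (1 - t)) := by
      simp only [c]
      rw [Real.sq_sqrt]
      exact mul_nonneg hpos (mul_nonneg ht.1 (by linarith [ht.2]))
    refine ⟨Y t, ?_, ?_, hzero⟩
    · intro hY
      have hct : c t = 0 := by
        by_contra hne
        apply hy3span
        have h3 : c t • y3 = -((1 - t) • y1 + (σ * t) • y2) := by
          rw [eq_neg_iff_add_eq_zero, add_comm]; exact hY
        have : y3 = (c t)⁻¹ • (c t • y3) := by rw [smul_smul, inv_mul_cancel₀ hne, one_smul]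
        rw [this, h3]
        refine Submodule.smul_mem _ _ (Submodule.neg_mem _ (Submodule.add_mem _
          (Submodule.smul_mem _ _ ?_) (Submodule.smul_mem _ _ ?_)))
        · exact Submodule.subset_span (by simp)
        · exact Submodule.subset_span (by simp)
      have hY' : (1 - t) • y1 + (σ * t) • y2 = 0 := by
        have := hY
        simp only [Y, hct, zero_smul, add_zero] at this
        exact this
      have hσ0 : σ ≠ 0 := by rintro rfl; norm_num at hσ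
      by_cases ht0 : t = 0
      · subst ht0; exact h0.ne hzero
      · have hst : σ * t ≠ 0 := mul_ne_zero hσ0 ht0
        have : y2 = (-(1 - t) / (σ * t)) • y1 := by
          have h2 : (σ * t) • y2 = -((1 - t) • y1) := by
            rw [eq_neg_iff_add_eq_zero, add_comm]; exact hY'
          have : y2 = (σ * t)⁻¹ • ((σ * t) • y2) := by
            rw [smul_smul, inv_mul_cancel₀ hst, one_smul]
          rw [this, h2, smul_neg, smul_smul, ← neg_smul]; congr 1; ring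
        rw [this] at g2
        simp only [map_smul, LinearMap.smul_apply, smul_eq_mul] at g2
        nlinarith [mul_self_nonneg (-(1 - t) / (σ * t))]
    · simp only [Y, map_add, map_smul, LinearMap.add_apply, LinearMap.smul_apply, smul_eq_mul]
      rw [hM y2 y1, hM y1 y3, hM y2 y3, h11, h22, h31, h32]
      have : (c t) * (c t) * M y3 y3 = -(2 * σ * M y1 y2) * (t * (1 - t)) := by
        rw [← hκ', ← pow_two, hc2]; ring
      linear_combination this

/-- The three forms evaluated at a vector. -/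
def ev (B : Fin 3 → LinearMap.BilinForm ℝ W) (y : W) : Fin 3 → ℝ := fun i => B i y y

lemma sum_form_apply (B : Fin 3 → LinearMap.BilinForm ℝ W) (μ : Fin 3 → ℝ) (x y : W) :
    (μ 0 • B 0 + μ 1 • B 1 + μ 2 • B 2) x y = ∑ i, μ i * B i x y := by
  simp [Fin.sum_univ_three]

lemma combo (hd : ∀ y1 y2 : W, ∃ v, v ∉ Submodule.span ℝ {y1, y2})
    (B : Fin 3 → LinearMap.BilinForm ℝ W) (hs : ∀ i x y, B i x y = B i y x)
    (θ : Fin 3 → ℝ) (hθ : ∀ y ≠ 0, 0 < ∑ i, θ i * B i y y)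
    (y1 y2 : W) (s t : ℝ) (hs0 : 0 ≤ s) (ht0 : 0 ≤ t) :
    ∃ y, ∀ i, B i y y = s * B i y1 y1 + t * B i y2 y2 := by
  -- trivial cases
  have scale : ∀ (r : ℝ) (y : W), 0 ≤ r → ∃ z, ∀ i, B i z z = r * B i y y := by
    intro r y hr
    refine ⟨Real.sqrt r • y, fun i => ?_⟩
    simp only [map_smul, LinearMap.smul_apply, smul_eq_mul]
    rw [← mul_assoc, Real.mul_self_sqrt hr]
  by_cases hy1 : y1 = 0
  · obtain ⟨z, hz⟩ := scale t y2 ht0
    exact ⟨z, fun i => by rw [hz, hy1]; simp⟩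
  by_cases hy2 : y2 = 0
  · obtain ⟨z, hz⟩ := scale s y1 hs0
    exact ⟨z, fun i => by rw [hz, hy2]; simp⟩
  rcases hs0.eq_or_lt with hs1 | hs1
  · obtain ⟨z, hz⟩ := scale t y2 ht0
    exact ⟨z, fun i => by rw [hz, ← hs1]; simp⟩
  rcases ht0.eq_or_lt with ht1 | ht1
  · obtain ⟨z, hz⟩ := scale s y1 hs0
    exact ⟨z, fun i => by rw [hz, ← ht1]; simp⟩
  have p1 := hθ y1 hy1
  have p2 := hθ y2 hy2
  simp only [Fin.sum_univ_three] at p1 p2
  -- coordinates
  obtain ⟨a0, ha0⟩ : ∃ a, a = B 0 y1 y1 := ⟨_, rfl⟩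
  obtain ⟨a1, ha1⟩ : ∃ a, a = B 1 y1 y1 := ⟨_, rfl⟩
  obtain ⟨a2, ha2⟩ : ∃ a, a = B 2 y1 y1 := ⟨_, rfl⟩
  obtain ⟨b0, hb0⟩ : ∃ a, a = B 0 y2 y2 := ⟨_, rfl⟩
  obtain ⟨b1, hb1⟩ : ∃ a, a = B 1 y2 y2 := ⟨_, rfl⟩
  obtain ⟨b2, hb2⟩ : ∃ a, a = B 2 y2 y2 := ⟨_, rfl⟩
  rw [← ha0, ← ha1, ← ha2] at p1
  rw [← hb0, ← hb1, ← hb2] at p2
  -- the cross product
  obtain ⟨m0, hm0⟩ : ∃ m, m = a1 * b2 - a2 * b1 := ⟨_, rfl⟩
  obtain ⟨m1, hm1⟩ : ∃ m, m = a2 * b0 - a0 * b2 := ⟨_, rfl⟩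
  obtain ⟨m2, hm2⟩ : ∃ m, m = a0 * b1 - a1 * b0 := ⟨_, rfl⟩
  by_cases hm : m0 = 0 ∧ m1 = 0 ∧ m2 = 0
  · obtain ⟨e0, e1, e2⟩ := hm
    rw [e0] at hm0; rw [e1] at hm1; rw [e2] at hm2
    set A := θ 0 * a0 + θ 1 * a1 + θ 2 * a2 with hA
    set D := θ 0 * b0 + θ 1 * b1 + θ 2 * b2 with hD
    obtain ⟨z, hz⟩ := scale (s * (A / D) + t) y2 (by positivity)
    have k0 : a0 = A / D * b0 := by
      rw [div_mul_eq_mul_div, eq_div_iff p2.ne', hA, hD]
      linear_combination (θ 2) * hm1 - (θ 1) * hm2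
    have k1 : a1 = A / D * b1 := by
      rw [div_mul_eq_mul_div, eq_div_iff p2.ne', hA, hD]
      linear_combination (θ 0) * hm2 - (θ 2) * hm0
    have k2 : a2 = A / D * b2 := by
      rw [div_mul_eq_mul_div, eq_div_iff p2.ne', hA, hD]
      linear_combination (θ 1) * hm0 - (θ 0) * hm1
    refine ⟨z, fun i => ?_⟩
    fin_cases i
    · simp only [Fin.zero_eta, Fin.isValue]; rw [hz, ← ha0, ← hb0]; linear_combination (-s) * k0
    · simp only [Fin.mk_one, Fin.isValue]; rw [hz, ← ha1, ← hb1]; linear_combination (-s) * k1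
    · simp only [Fin.reduceFinMk, Fin.isValue]; rw [hz, ← ha2, ← hb2]
      linear_combination (-s) * k2
  · -- nondegenerate case
    have hmpos : 0 < m0 ^ 2 + m1 ^ 2 + m2 ^ 2 := by
      rcases not_and_or.mp hm with h | h
      · have := sq_nonneg m1; have := sq_nonneg m2; have := pow_pos (abs_pos.mpr h) 2
        rw [sq_abs] at this; linarith
      · rcases not_and_or.mp h with h | h
        · have := sq_nonneg m0; have := sq_nonneg m2; have := pow_pos (abs_pos.mpr h) 2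
          rw [sq_abs] at this; linarith
        · have := sq_nonneg m0; have := sq_nonneg m1; have := pow_pos (abs_pos.mpr h) 2
          rw [sq_abs] at this; linarith
    obtain ⟨w0, hw0⟩ : ∃ w, w = s * a0 + t * b0 := ⟨_, rfl⟩
    obtain ⟨w1, hw1⟩ : ∃ w, w = s * a1 + t * b1 := ⟨_, rfl⟩
    obtain ⟨w2, hw2⟩ : ∃ w, w = s * a2 + t * b2 := ⟨_, rfl⟩
    -- n = m × w
    obtain ⟨n0, hn0⟩ : ∃ n, n = m1 * w2 - m2 * w1 := ⟨_, rfl⟩
    obtain ⟨n1, hn1⟩ : ∃ n, n = m2 * w0 - m0 * w2 := ⟨_, rfl⟩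
    obtain ⟨n2, hn2⟩ : ∃ n, n = m0 * w1 - m1 * w0 := ⟨_, rfl⟩
    let M : LinearMap.BilinForm ℝ W := m0 • B 0 + m1 • B 1 + m2 • B 2
    let G : LinearMap.BilinForm ℝ W := n0 • B 0 + n1 • B 1 + n2 • B 2
    have hMa : ∀ x y, M x y = m0 * B 0 x y + m1 * B 1 x y + m2 * B 2 x y := fun x y => by simp [M]
    have hGa : ∀ x y, G x y = n0 * B 0 x y + n1 * B 1 x y + n2 * B 2 x y := fun x y => by simp [G]
    -- (m × w) · a = m · (w × a) = t * m · (b × a) = - t |m|^2
    have hGy1 : G y1 y1 = -(t * (m0 ^ 2 + m1 ^ 2 + m2 ^ 2)) := by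
      rw [hGa, ← ha0, ← ha1, ← ha2, hn0, hn1, hn2, hw0, hw1, hw2, hm0, hm1, hm2]; ring
    have hGy2 : G y2 y2 = s * (m0 ^ 2 + m1 ^ 2 + m2 ^ 2) := by
      rw [hGa, ← hb0, ← hb1, ← hb2, hn0, hn1, hn2, hw0, hw1, hw2, hm0, hm1, hm2]; ring
    obtain ⟨y, hy0, hMy, hGy⟩ := path_zero hd M G
      (fun x y => by rw [hMa, hMa, hs 0, hs 1, hs 2]) (fun x y => by rw [hGa, hGa, hs 0, hs 1, hs 2])
      y1 y2 (by rw [hMa, ← ha0, ← ha1, ← ha2, hm0, hm1, hm2]; ring)
      (by rw [hMa, ← hb0, ← hb1, ← hb2, hm0, hm1, hm2]; ring)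
      (by rw [hGy1]; have := mul_pos ht1 hmpos; linarith)
      (by rw [hGy2]; exact mul_pos hs1 hmpos)
    rw [hMa] at hMy
    rw [hGa] at hGy
    obtain ⟨q0, hq0⟩ : ∃ q, q = B 0 y y := ⟨_, rfl⟩
    obtain ⟨q1, hq1⟩ : ∃ q, q = B 1 y y := ⟨_, rfl⟩
    obtain ⟨q2, hq2⟩ : ∃ q, q = B 2 y y := ⟨_, rfl⟩
    have p3 := hθ y hy0
    simp only [Fin.sum_univ_three] at p3
    rw [← hq0, ← hq1, ← hq2] at p3 hMy hGy
    -- q × w = 0
    have hMw : m0 * w0 + m1 * w1 + m2 * w2 = 0 := by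
      rw [hw0, hw1, hw2, hm0, hm1, hm2]; ring
    obtain ⟨c0, hc0⟩ : ∃ c, c = q1 * w2 - q2 * w1 := ⟨_, rfl⟩
    obtain ⟨c1, hc1⟩ : ∃ c, c = q2 * w0 - q0 * w2 := ⟨_, rfl⟩
    obtain ⟨c2, hc2⟩ : ∃ c, c = q0 * w1 - q1 * w0 := ⟨_, rfl⟩
    have hcm : m0 * c0 + m1 * c1 + m2 * c2 = 0 := by
      rw [hc0, hc1, hc2]
      rw [hn0, hn1, hn2] at hGy
      linear_combination -hGy
    have d0 : c1 * m2 - c2 * m1 = 0 := by
      rw [hc1, hc2]
      linear_combination w0 * hMy - q0 * hMw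
    have d1 : c2 * m0 - c0 * m2 = 0 := by
      rw [hc0, hc2]
      linear_combination w1 * hMy - q1 * hMw
    have d2 : c0 * m1 - c1 * m0 = 0 := by
      rw [hc0, hc1]
      linear_combination w2 * hMy - q2 * hMw
    have hprod : (c0 ^ 2 + c1 ^ 2 + c2 ^ 2) * (m0 ^ 2 + m1 ^ 2 + m2 ^ 2) = 0 := by
      have : (c0 ^ 2 + c1 ^ 2 + c2 ^ 2) * (m0 ^ 2 + m1 ^ 2 + m2 ^ 2) =
        (c1 * m2 - c2 * m1) ^ 2 + (c2 * m0 - c0 * m2) ^ 2 + (c0 * m1 - c1 * m0) ^ 2
          + (m0 * c0 + m1 * c1 + m2 * c2) ^ 2 := by ring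
      rw [this, d0, d1, d2, hcm]; ring
    have hcc : c0 ^ 2 + c1 ^ 2 + c2 ^ 2 = 0 := by
      rcases mul_eq_zero.mp hprod with h | h
      · exact h
      · exact absurd h hmpos.ne'
    have e0 : c0 = 0 := by nlinarith [sq_nonneg c0, sq_nonneg c1, sq_nonneg c2]
    have e1 : c1 = 0 := by nlinarith [sq_nonneg c0, sq_nonneg c1, sq_nonneg c2]
    have e2 : c2 = 0 := by nlinarith [sq_nonneg c0, sq_nonneg c1, sq_nonneg c2]
    rw [e0] at hc0; rw [e1] at hc1; rw [e2] at hc2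
    set A := θ 0 * w0 + θ 1 * w1 + θ 2 * w2 with hA
    set D := θ 0 * q0 + θ 1 * q1 + θ 2 * q2 with hD
    have hApos : 0 < A := by
      have : A = s * (θ 0 * a0 + θ 1 * a1 + θ 2 * a2) + t * (θ 0 * b0 + θ 1 * b1 + θ 2 * b2) := by
        rw [hA, hw0, hw1, hw2]; ring
      rw [this]; positivity
    obtain ⟨z, hz⟩ := scale (A / D) y (by positivity)
    have k0 : w0 = A / D * q0 := by
      rw [div_mul_eq_mul_div, eq_div_iff p3.ne', hA, hD]
      linear_combination (-θ 2) * hc1 + (θ 1) * hc2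
    have k1 : w1 = A / D * q1 := by
      rw [div_mul_eq_mul_div, eq_div_iff p3.ne', hA, hD]
      linear_combination (-θ 0) * hc2 + (θ 2) * hc0
    have k2 : w2 = A / D * q2 := by
      rw [div_mul_eq_mul_div, eq_div_iff p3.ne', hA, hD]
      linear_combination (-θ 1) * hc0 + (θ 0) * hc1
    refine ⟨z, fun i => ?_⟩
    fin_cases i
    · simp only [Fin.zero_eta, Fin.isValue]; rw [hz, ← ha0, ← hb0, ← hw0, ← hq0, ← k0]
    · simp only [Fin.mk_one, Fin.isValue]; rw [hz, ← ha1, ← hb1, ← hw1, ← hq1, ← k1]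
    · simp only [Fin.reduceFinMk, Fin.isValue]; rw [hz, ← ha2, ← hb2, ← hw2, ← hq2, ← k2]

/-- S-lemma for three forms with a positive definite linear combination in dimension `≥ 3`. -/
theorem slemma (hd : ∀ y1 y2 : W, ∃ v, v ∉ Submodule.span ℝ {y1, y2})
    (B : Fin 3 → LinearMap.BilinForm ℝ W) (hs : ∀ i x y, B i x y = B i y x)
    (θ : Fin 3 → ℝ) (hθ : ∀ y ≠ 0, 0 < ∑ i, θ i * B i y y)
    (hno : ∀ y, ∃ i, 0 ≤ B i y y) :
    ∃ lam : Fin 3 → ℝ, lam ∈ stdSimplex ℝ (Fin 3) ∧ ∀ y, 0 ≤ ∑ i, lam i * B i y y := by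
  let D : Set (Fin 3 → ℝ) := Set.range fun y => fun i => B i y y
  let N : Set (Fin 3 → ℝ) := {a | ∀ i, a i < 0}
  have hNconv : Convex ℝ N := by
    intro x hx y hy a b ha hb hab i
    have h1 := hx i
    have h2 := hy i
    simp only [Pi.add_apply, Pi.smul_apply, smul_eq_mul]
    rcases ha.eq_or_lt with h | h
    · rw [← h] at hab ⊢; have : b = 1 := by linarith
      rw [this]; linarith
    · nlinarith
  have hNopen : IsOpen N := by
    have : N = ⋂ i, {a : Fin 3 → ℝ | a i < 0} := by ext a; simp [N]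
    rw [this]
    exact isOpen_iInter_of_finite fun i => isOpen_lt (continuous_apply i) continuous_const
  have hDconv : Convex ℝ D := by
    rintro _ ⟨y1, rfl⟩ _ ⟨y2, rfl⟩ a b ha hb _
    obtain ⟨y, hy⟩ := combo hd B hs θ hθ y1 y2 a b ha hb
    exact ⟨y, by funext i; simpa using hy i⟩
  have hdisj : Disjoint N D := by
    rw [Set.disjoint_left]
    rintro a ha ⟨y, rfl⟩
    obtain ⟨i, hi⟩ := hno y
    exact absurd (ha i) (not_lt.mpr hi)
  obtain ⟨f, u, hfN, hfD⟩ := geometric_hahn_banach_open hNconv hNopen hDconv hdisj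
  set L : Fin 3 → ℝ := fun i => f (Pi.single i 1) with hL
  have hf : ∀ a : Fin 3 → ℝ, f a = ∑ i, L i * a i := by
    intro a
    have : a = ∑ i, a i • (Pi.single i (1:ℝ) : Fin 3 → ℝ) := by
      simp only [Fin.sum_univ_three]
      funext i; fin_cases i <;> simp
    conv_lhs => rw [this]
    rw [map_sum]
    refine Finset.sum_congr rfl fun i _ => ?_
    rw [map_smul, smul_eq_mul, mul_comm]
  have hu : u ≤ 0 := by
    have := hfD 0 ⟨0, by funext i; simp⟩
    simpa using this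
  have hDnn : ∀ y, 0 ≤ ∑ i, L i * B i y y := by
    intro y
    by_contra hneg
    push Not at hneg
    set c := ∑ i, L i * B i y y with hc
    -- scale by r with r^2 c < u
    obtain ⟨n, hn⟩ := exists_nat_gt (u / c)
    have hc' : (n:ℝ) * c < u := by
      rwa [div_lt_iff_of_neg hneg] at hn
    have hr : ∀ i, B i (Real.sqrt n • y) (Real.sqrt n • y) = n * B i y y := by
      intro i
      simp only [map_smul, LinearMap.smul_apply, smul_eq_mul]
      rw [← mul_assoc, Real.mul_self_sqrt (Nat.cast_nonneg n)]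
    have := hfD _ ⟨Real.sqrt n • y, rfl⟩
    rw [hf] at this
    simp only [hr] at this
    have e : ∑ i, L i * (n * B i y y) = n * c := by
      rw [hc, Finset.mul_sum]; exact Finset.sum_congr rfl fun i _ => by ring
    rw [e] at this
    linarith
  have hLnn : ∀ i, 0 ≤ L i := by
    intro i
    by_contra hneg
    push Not at hneg
    -- a = - M e_i - 1
    obtain ⟨K, hK⟩ : ∃ K, K = ∑ j, L j := ⟨_, rfl⟩
    obtain ⟨n, hn⟩ := exists_nat_gt (K / (-L i))
    have hn' : K < n * (-L i) := by rwa [div_lt_iff₀ (by linarith)] at hn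
    have := hfN (fun j => - (n:ℝ) * (if j = i then 1 else 0) - 1) (by
      intro j
      by_cases h : j = i
      · have := Nat.cast_nonneg (α := ℝ) n
        simp only [h, if_true, mul_one]; linarith
      · simp [h])
    rw [hf] at this
    have e : ∑ j, L j * (- (n:ℝ) * (if j = i then 1 else 0) - 1) = -n * L i - K := by
      rw [hK]
      simp only [mul_sub, mul_one, Finset.sum_sub_distrib]
      congr 1
      rw [Finset.sum_eq_single i]
      · simp; ring
      · intro j _ hj; simp [hj]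
      · simp
    rw [e] at this
    linarith
  have hLpos : 0 < ∑ i, L i := by
    have := hfN (fun _ => -1) (fun i => by norm_num)
    rw [hf] at this
    simp only [mul_neg, mul_one, Finset.sum_neg_distrib] at this
    linarith
  refine ⟨fun i => L i / ∑ j, L j, ⟨fun i => div_nonneg (hLnn i) hLpos.le, ?_⟩, fun y => ?_⟩
  · rw [← Finset.sum_div, div_self hLpos.ne']
  · have : ∑ i, L i / (∑ j, L j) * B i y y = (∑ i, L i * B i y y) / ∑ j, L j := by
      rw [Finset.sum_div]; exact Finset.sum_congr rfl fun i _ => by ring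
    rw [this]
    exact div_nonneg (hDnn y) hLpos.le

end Pool.Agent.Helper17.Agg
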